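import Pool.Agent.Lib.MP_49fa77_co.H30.Iface

/-! Module CT: the count. -/

set_option autoImplicit false

namespace FT58.AS.H74

open Real MeasureTheory Set Metric Filter Relation FT58 FT58.AS

section
open Classical

theorem ct_st (hGA : GaS) (_hEX : ExS) (hPE : PeS) (hCC : CcS) : CtS := by
  intro S hG hne J hJ hdis
  have h1 := euler_count hG hne
  -- the other triangles
  set N : ℂ → ℂ → ℂ → Prop := fun c q r => Tr S c q r ∧ ¬ MX S S c q r with hN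
  have hNF : Fam S N := by
    refine ⟨fun c q r h => h.1, ?_⟩
    rintro c q r ⟨h1, h2⟩
    refine ⟨Tr_cyc h1, fun h => h2 ?_⟩
    exact (MX_Rg S S).cyc _ _ _ ((MX_Rg S S).cyc _ _ _ h)
  obtain ⟨X, hXs, hXR, hX3, hXc, -⟩ := hPE S (fun c q => ¬ Se S c q) N
    (fun c q h h' => h (Se_symm h')) hNF (by
      intro Y hY hYN hYne
      by_contra hcon
      push Not at hcon
      obtain ⟨c0, q0, r0, h0⟩ := hYne
      have hRg : Rg S S Y := by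
        refine ⟨⟨hY.tr, hY.cyc⟩, ?_⟩
        intro c q r h
        by_cases hL : Lf Y q c
        · exact Or.inl hL
        · have h2 := hcon c q r h hL
          exact Or.inr h2.2
      exact (hYN _ _ _ h0).2 (MX_max hRg h0))
  -- edges of the family `N`
  have hNE : ∀ c q, Lf N c q → c ∈ S ∧ q ∈ S ∧ Eg S c q := by
    rintro c q ⟨r, hr⟩
    exact ⟨hr.1.1, hr.1.2.1, (Tr_ne hr.1).1, Tr_Ed hr.1⟩
  have hNM : ∀ c q, Lf N c q → ¬ Lf (MX S S) c q := by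
    rintro c q ⟨r, hr⟩ ⟨s, hs⟩
    have := Tr_unique ((MX_Rg S S).tr _ _ _ hs) hr.1
    rw [this] at hs
    exact hr.2 hs
  have hXRm : ∀ c q, X c q → Rm S S c q := by
    intro c q hX
    obtain ⟨h2, h3⟩ := hXR c q hX
    rcases h3 with h3 | h3
    · exact ⟨(hNE _ _ h3).2.2, h2, hNM _ _ h3⟩
    · refine ⟨Eg_symm (hNE _ _ h3).2.2, h2, ?_⟩
      rintro ⟨r, hr⟩
      rcases (MX_Rg S S).bd _ _ _ hr with h4 | h4
      · exact hNM _ _ h3 h4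
      · exact h2 ⟨(Eg_symm (hNE _ _ h3).2.2).1, h4⟩
  -- connectedness of the Delaunay graph
  have hconn : ∀ x ∈ S, ∀ y ∈ S, ReflTransGen (fun c q => c ∈ S ∧ q ∈ S ∧ Eg S c q) x y := by
    intro x hx y hy
    by_contra hno
    obtain ⟨c, hc, q, hq, hAc, hAq, hE⟩ := hGA S
      (fun z => ReflTransGen (fun c q => c ∈ S ∧ q ∈ S ∧ Eg S c q) x z) ⟨x, hx, .refl⟩ ⟨y, hy, hno⟩
    exact hAq (hAc.tail ⟨hc, hq, hE⟩)
  have hconn2 : ∀ x ∈ S, ∀ y ∈ S, ReflTransGen (fun c q => c ∈ S ∧ q ∈ S ∧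
      ((Se S c q ∨ Lf (MX S S) c q ∨ Lf (MX S S) q c) ∨ (Rm S S c q ∧ ¬ X c q))) x y := by
    intro x hx y hy
    have h2 := hXc (fun c q => c ∈ S ∧ q ∈ S ∧ Eg S c q)
      (fun c q h => ⟨h.2.1, h.1, Eg_symm h.2.2⟩) hNE x y (hconn x hx y hy)
    refine ReflTransGen.mono (fun c q h3 => ?_) x y h2
    obtain ⟨⟨hc, hq, hE⟩, hnX⟩ := h3
    refine ⟨hc, hq, ?_⟩
    by_cases k1 : Se S c q
    · exact Or.inl (Or.inl k1)
    by_cases k2 : Lf (MX S S) c q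
    · exact Or.inl (Or.inr (Or.inl k2))
    exact Or.inr ⟨⟨hE, k1, k2⟩, hnX⟩
  have hcc := hCC S (fun c q => Se S c q ∨ Lf (MX S S) c q ∨ Lf (MX S S) q c)
    (fun c q => Rm S S c q ∧ ¬ X c q)
    (by
      rintro c q (h | h | h)
      · exact Or.inl (Se_symm h)
      · exact Or.inr (Or.inr h)
      · exact Or.inr (Or.inl h))
    (fun c q h => ⟨Rm_symm h.1, fun h' => h.2 (hXs _ _ h')⟩) hconn2 J hJ hdis
  -- splitting of the edges
  have s1 := sE_split (P := S) (X := Eg S) (Y := Lf (Tr S)) (fun _ _ => 1)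
  have s2 := sE_split (P := S) (X := Eg S) (Y := Lf (MX S S)) (fun _ _ => 1)
  have s3 := sE_split (P := S) (X := fun c q => Eg S c q ∧ ¬ Lf (MX S S) c q) (Y := Se S)
    (fun _ _ => 1)
  have s4 := sE_split (P := S) (X := Lf (Tr S)) (Y := Lf (MX S S)) (fun _ _ => 1)
  have s5 := sE_split (P := S) (X := Rm S S) (Y := X) (fun _ _ => 1)
  simp only [sE_one] at s1 s2 s3 s4 s5
  have c1 : nE S (fun c q => Eg S c q ∧ Lf (Tr S) c q) = nE S (Lf (Tr S)) :=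
    le_antisymm (nE_le fun c _ q _ h => h.2) (nE_le fun c _ q _ h => by
      obtain ⟨r, hr⟩ := h
      exact ⟨⟨(Tr_ne hr).1, Tr_Ed hr⟩, r, hr⟩)
  have c2 : nE S (fun c q => Eg S c q ∧ Lf (MX S S) c q) = nE S (Lf (MX S S)) :=
    le_antisymm (nE_le fun c _ q _ h => h.2) (nE_le fun c _ q _ h => by
      obtain ⟨r, hr⟩ := h
      have hr' := (MX_Rg S S).tr _ _ _ hr
      exact ⟨⟨(Tr_ne hr').1, Tr_Ed hr'⟩, r, hr⟩)
  have c3 : nE S (fun c q => (Eg S c q ∧ ¬ Lf (MX S S) c q) ∧ Se S c q)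
      = nE S (fun c q => Se S c q ∧ ¬ Lf (MX S S) c q) :=
    le_antisymm (nE_le fun c _ q _ h => ⟨h.2, h.1.2⟩) (nE_le fun c _ q _ h =>
      ⟨⟨⟨h.1.1, h.1.2.1⟩, h.2⟩, h.1⟩)
  have c4 : nE S (fun c q => (Eg S c q ∧ ¬ Lf (MX S S) c q) ∧ ¬ Se S c q) = nE S (Rm S S) :=
    le_antisymm (nE_le fun c _ q _ h => ⟨h.1.1, h.2, h.1.2⟩)
      (nE_le fun c _ q _ h => ⟨⟨h.1, h.2.2⟩, h.2.1⟩)
  have c5 : nE S (fun c q => Lf (Tr S) c q ∧ Lf (MX S S) c q) = nE S (Lf (MX S S)) :=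
    le_antisymm (nE_le fun c _ q _ h => h.2) (nE_le fun c _ q _ h => by
      obtain ⟨r, hr⟩ := h
      exact ⟨⟨r, (MX_Rg S S).tr _ _ _ hr⟩, r, hr⟩)
  have c6 : nE S (fun c q => Lf (Tr S) c q ∧ ¬ Lf (MX S S) c q) = nE S (Lf N) := by
    apply le_antisymm
    · apply nE_le
      rintro c _ q _ ⟨⟨r, hr⟩, h⟩
      exact ⟨r, hr, fun h' => h ⟨r, h'⟩⟩
    · apply nE_le
      intro c _ q _ h
      obtain ⟨r, hr, h'⟩ := h
      exact ⟨⟨r, hr⟩, hNM _ _ ⟨r, hr, h'⟩⟩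
  have c7 : nE S (fun c q => Eg S c q ∧ ¬ Lf (Tr S) c q) = nE S (Hl S) := rfl
  have c8 : nE S (fun c q => Rm S S c q ∧ X c q) = nE S X :=
    le_antisymm (nE_le fun c _ q _ h => h.2) (nE_le fun c _ q _ h => ⟨hXRm _ _ h, h⟩)
  rw [c1, c7] at s1
  rw [c2] at s2
  rw [c3, c4] at s3
  rw [c5, c6] at s4
  rw [c8] at s5
  have hX3' : 3 * (nE S X : ℝ) = 2 * nE S (Lf N) := by exact_mod_cast hX3
  have hcc' : 2 * (J.card : ℝ) ≤ nE S (fun c q => Rm S S c q ∧ ¬ X c q) + 2 := by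
    exact_mod_cast hcc
  linarith

end

end FT58.AS.H74
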